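import Pool.Agent.Helper14.S2T.Tree

/-! MP_39784a_al: a finitely generated simple group with a sharply 2-transitive action in which
some involution has a fixed point (characteristic different from 2) has a global fixed point in
every isometric action on a real tree (property FR, hence Serre's property FA). -/

set_option autoImplicit false

namespace Pool.Agent.Results.MP_39784a_al.FixedPointsOnTrees

open Pool.Agent.Helper14.S2T

universe u v w

/-- Let `G` be a finitely generated simple group that acts sharply 2-transitively on `X` such that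
some involution has a fixed point in `X`. Then every isometric action of `G` on a real tree has a
global fixed point. -/
theorem result {G : Type u} [Group G] {X : Type v} [MulAction G X]
    (hG : IsSimpleGroup G) (hfg : Group.FG G) (hX : Nontrivial X)
    (h2 : ∀ x₁ x₂ y₁ y₂ : X, x₁ ≠ x₂ → y₁ ≠ y₂ → ∃! g : G, g • x₁ = y₁ ∧ g • x₂ = y₂)
    (hc : ∃ g : G, g ≠ 1 ∧ g * g = 1 ∧ ∃ x : X, g • x = x)
    {T : Type w} [MetricSpace T] [Nonempty T] [MulAction G T] [IsIsometricSMul G T]
    (hT : IsRealTree T) : ∃ z : T, ∀ g : G, g • z = z := by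
  classical
  obtain ⟨J, hJ1, hJ2⟩ := fin_gen (closure_inv hG (exists_inv h2 hX)) hfg
  obtain ⟨o⟩ := ‹Nonempty T›
  have hpair : ∀ i j : G, i * i = 1 → j * j = 1 → ∃ m : T, i • m = m ∧ j • m = m := by
    intro i j hi hj
    by_cases hij : i = j
    · refine common_fix hT (p := o) hi hj ?_
      rw [← hij, hi, one_smul]
    by_cases hi1 : i = 1
    · obtain ⟨m, h1, -⟩ := common_fix hT (p := o) hj hj (by rw [hj, one_smul])
      exact ⟨m, by rw [hi1, one_smul], h1⟩
    by_cases hj1 : j = 1
    · obtain ⟨m, h1, -⟩ := common_fix hT (p := o) hi hi (by rw [hi, one_smul])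
      exact ⟨m, h1, by rw [hj1, one_smul]⟩
    obtain ⟨k, hk⟩ := conj_sq h2 hX hc hi1 hj1 hi hj hij
    obtain ⟨p, hp⟩ := exists_fix hT hk o
    exact common_fix hT hi hj hp
  obtain ⟨z, -, hz⟩ := helly hT (fun g : G => {z : T | g • z = z}) (fun g => fix_convex hT g) J
    Set.univ (fun _ _ _ _ _ _ => Set.mem_univ _) ⟨o, Set.mem_univ _⟩
    (fun j hj => by
      obtain ⟨m, h1, -⟩ := hpair j j (hJ1 j hj) (hJ1 j hj)
      exact ⟨m, Set.mem_univ _, h1⟩)
    (fun j hj k hk => by
      obtain ⟨m, h1, h3⟩ := hpair j k (hJ1 j hj) (hJ1 k hk)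
      exact ⟨m, h1, h3⟩)
  refine ⟨z, fun g => ?_⟩
  have hle : Subgroup.closure (J : Set G) ≤ MulAction.stabilizer G z := by
    rw [Subgroup.closure_le]
    intro x hx
    exact hz x hx
  rw [hJ2] at hle
  exact hle (Subgroup.mem_top g)

end Pool.Agent.Results.MP_39784a_al.FixedPointsOnTrees
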