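import Pool.Agent.Helper14.S2T.Gen

/-! MP_39784a_al: a simple group with a sharply 2-transitive action in which some involution has a
fixed point (characteristic different from 2) has no isometric action of general type on a Gromov
hyperbolic space. -/

set_option autoImplicit false

namespace Pool.Agent.Results.MP_39784a_al.NoGeneralType

open Pool.Agent.Helper14.S2T

universe u v w

/-- Let `G` be a simple group that acts sharply 2-transitively on `X` such that some involution
has a fixed point in `X`. In every isometric action of `G` on a Gromov hyperbolic space `H` any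
two loxodromic elements have a common fixed point at infinity (they are not independent). -/
theorem result {G : Type u} [Group G] {X : Type v} [MulAction G X]
    (hG : IsSimpleGroup G) (hX : Nontrivial X)
    (h2 : ∀ x₁ x₂ y₁ y₂ : X, x₁ ≠ x₂ → y₁ ≠ y₂ → ∃! g : G, g • x₁ = y₁ ∧ g • x₂ = y₂)
    (hc : ∃ g : G, g ≠ 1 ∧ g * g = 1 ∧ ∃ x : X, g • x = x)
    {H : Type w} [PseudoMetricSpace H] [MulAction G H] [IsIsometricSMul G H]
    (δ : ℝ) (hδ : FourPoint H δ) (o : H) (g h : G)
    (hg : Loxodromic g o) (hh : Loxodromic h o) : ¬ Independent g h o := by
  intro hI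
  have hd : 0 ≤ δ := by
    have := hδ o o o o
    simp only [dist_self, add_zero, max_self, zero_add] at this
    linarith
  obtain ⟨i, j, hi, hj, c, hc0, hl⟩ :=
    exists_lox_product hδ hd hg hh hI (closure_inv hG (exists_inv h2 hX))
  have hij1 : i * j ≠ 1 := by
    intro e
    have h1 := hl 1
    rw [e, one_pow, one_smul, dist_self, Nat.cast_one, mul_one] at h1
    linarith
  have hij : i ≠ j := by
    intro e
    rw [e, hj] at hij1
    exact hij1 rfl
  by_cases hi1 : i = 1
  · -- `j` is an involution or trivial: not loxodromic
    have h1 := hl 2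
    rw [hi1, one_mul, pow_two, hj, one_smul, dist_self] at h1
    push_cast at h1
    linarith
  by_cases hj1 : j = 1
  · have h1 := hl 2
    rw [hj1, mul_one, pow_two, hi, one_smul, dist_self] at h1
    push_cast at h1
    linarith
  obtain ⟨k, hk⟩ := conj_sq h2 hX hc hi1 hj1 hi hj hij
  exact no_lin hk o c 0 hc0 (fun n => by have := hl n; linarith)

end Pool.Agent.Results.MP_39784a_al.NoGeneralType
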